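import Mathlib
import Pool.Agent.H56.Lind.NoUniv

set_option autoImplicit false

/-!
# No Boolean algebra has characteristic `Π⁰₃`

There is no `Π⁰₃`-universal numerated Boolean algebra: for every numerated `Π⁰₃`-algebra `U` there is a numbering of
the two-element algebra which makes it a `Π⁰₃`-algebra not isomorphic, as a numerated algebra, to any `U[a]`. Hence
the Lindenbaum algebras of the theories of the classes `D` and `C` do not have characteristic `Π⁰₃`, for any finite
rich signature.
-/

namespace Pool.Agent.Results.MP_2af4de_lc.NoUniversalAlgebra

open Pool.Agent.H56.Lind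

/-- The negated form of the question, for every finite rich signature, and for both classes; the reason is that
there is no `Π⁰₃`-universal numerated Boolean algebra at all. -/
theorem result :
    (¬ ∃ U : NumAlg, U.IsPi3Universal) ∧
      ∀ L : FirstOrder.Language.{0, 0}, FiniteRich L →
        ¬ HasCharacteristicPi3 L (theoryOfDecidable L) ∧
          ¬ HasCharacteristicPi3 L (theoryOfStronglyConstructivizable L) :=
  ⟨fun ⟨U, hU⟩ => no_universal U hU,
    fun _ _ => ⟨fun ⟨U, hU, _⟩ => no_universal U hU, fun ⟨U, hU, _⟩ => no_universal U hU⟩⟩

end Pool.Agent.Results.MP_2af4de_lc.NoUniversalAlgebra
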